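import Pool.Agent.H33.G.R_seed8.H95R2.Leh.Defs
import Pool.Agent.H33.G.R_seed8.Helper923.PPS.BT

set_option autoImplicit false

/-!
# Sieve for arithmetic progressions with an arbitrary modulus; primes in dyadic intervals
-/

namespace Pool.Agent.H95R2.Leh

open Finset Pool.Agent.Helper923.PPS

namespace ApS

/-- sum of the reciprocals of the numbers up to `R` without prime factors in `S` -/
noncomputable def HS (S : Finset ℕ) (R : ℕ) : ℝ :=
  ∑ n ∈ (Finset.Icc 1 R).filter (fun n => ∀ p ∈ S, ¬ p ∣ n), (n : ℝ)⁻¹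

theorem HS_nonneg (S : Finset ℕ) (R : ℕ) : 0 ≤ HS S R :=
  Finset.sum_nonneg fun _ _ => by positivity

theorem HS_insert {S : Finset ℕ} {p : ℕ} (hp : 0 < p) (R : ℕ) :
    (1 - (p : ℝ)⁻¹) * HS S R ≤ HS (insert p S) R := by
  classical
  have hsplit := Finset.sum_filter_add_sum_filter_not
    ((Finset.Icc 1 R).filter (fun n => ∀ p ∈ S, ¬ p ∣ n)) (fun n => ¬ p ∣ n)
    (fun n : ℕ => (n : ℝ)⁻¹)
  have h1 : ((Finset.Icc 1 R).filter (fun n => ∀ p ∈ S, ¬ p ∣ n)).filter (fun n => ¬ p ∣ n) =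
      (Finset.Icc 1 R).filter (fun n => ∀ r ∈ insert p S, ¬ r ∣ n) := by
    ext n
    simp only [Finset.mem_filter, Finset.mem_insert, forall_eq_or_imp]
    tauto
  have h2 : (∑ n ∈ ((Finset.Icc 1 R).filter (fun n => ∀ p ∈ S, ¬ p ∣ n)).filter
      (fun n => ¬ ¬ p ∣ n), (n : ℝ)⁻¹) ≤ (p : ℝ)⁻¹ * HS S R := by
    unfold HS
    rw [Finset.mul_sum]
    have h3 : ((Finset.Icc 1 R).filter (fun n => ∀ p ∈ S, ¬ p ∣ n)).filter
        (fun n => ¬ ¬ p ∣ n) ⊆
        ((Finset.Icc 1 R).filter (fun n => ∀ p ∈ S, ¬ p ∣ n)).image (fun m => p * m) := by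
      intro n hn
      rw [Finset.mem_filter, Finset.mem_filter, Finset.mem_Icc, not_not] at hn
      obtain ⟨⟨⟨hn1, hnR⟩, hnS⟩, m, rfl⟩ := hn
      rw [Finset.mem_image]
      refine ⟨m, ?_, rfl⟩
      rw [Finset.mem_filter, Finset.mem_Icc]
      have hm : 0 < m := by
        rcases Nat.eq_zero_or_pos m with h | h
        · subst h; simp at hn1
        · exact h
      exact ⟨⟨hm, le_trans (Nat.le_mul_of_pos_left m hp) hnR⟩,
        fun r hr h => hnS r hr (h.mul_left p)⟩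
    refine (Finset.sum_le_sum_of_subset_of_nonneg h3 (fun _ _ _ => by positivity)).trans ?_
    rw [Finset.sum_image (by
      intro x _ y _ hxy
      exact Nat.eq_of_mul_eq_mul_left hp hxy)]
    apply le_of_eq
    apply Finset.sum_congr rfl
    intro m _
    push_cast
    rw [mul_inv]
  have h4 : HS (insert p S) R + (∑ n ∈ ((Finset.Icc 1 R).filter
      (fun n => ∀ p ∈ S, ¬ p ∣ n)).filter (fun n => ¬ ¬ p ∣ n), (n : ℝ)⁻¹) = HS S R := by
    rw [h1] at hsplit
    exact hsplit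
  linarith

theorem HS_ge (S : Finset ℕ) (hS : ∀ p ∈ S, 1 < p) (R : ℕ) :
    (∏ p ∈ S, (1 - (p : ℝ)⁻¹)) * HS ∅ R ≤ HS S R := by
  classical
  induction S using Finset.induction_on with
  | empty => simp
  | @insert p S hpS ih =>
    rw [Finset.prod_insert hpS, mul_assoc]
    have hp := hS p (Finset.mem_insert_self p S)
    have h1 := ih (fun r hr => hS r (Finset.mem_insert_of_mem hr))
    have h2 : 0 ≤ 1 - (p : ℝ)⁻¹ := by
      have : (p : ℝ)⁻¹ ≤ 1 := inv_le_one_of_one_le₀ (by exact_mod_cast hp.le)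
      linarith
    exact (mul_le_mul_of_nonneg_left h1 h2).trans (HS_insert (by omega) R)

theorem totient_div {q : ℕ} (hq : 1 ≤ q) :
    ∏ p ∈ q.primeFactors, (1 - (p : ℝ)⁻¹) = (Nat.totient q : ℝ) / q := by
  have h := Nat.totient_eq_mul_prod_factors q
  have h1 : (Nat.totient q : ℝ) = q * ∏ p ∈ q.primeFactors, (1 - (p : ℝ)⁻¹) := by
    have h2 := congrArg (fun z : ℚ => (z : ℝ)) h
    push_cast at h2
    exact h2
  have hq0 : (q : ℝ) ≠ 0 := by
    have : (0 : ℝ) < q := by exact_mod_cast hq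
    exact this.ne'
  rw [h1]
  field_simp

theorem coprime_sum_ge {q : ℕ} (hq : 1 ≤ q) (R : ℕ) :
    ((Nat.totient q : ℝ) / q) * Real.log ((R : ℝ) + 1) ≤
      ∑ n ∈ (Finset.Icc 1 R).filter (fun n => Nat.Coprime n q), (n : ℝ)⁻¹ := by
  classical
  have h1 := HS_ge q.primeFactors (fun p hp => (Nat.prime_of_mem_primeFactors hp).one_lt) R
  rw [totient_div hq] at h1
  have h2 : Real.log ((R : ℝ) + 1) ≤ HS ∅ R := by
    have h4 := log_add_one_le_harmonic R
    rw [harmonic_eq_sum_Icc] at h4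
    push_cast at h4
    unfold HS
    simpa using h4
  have h3 : HS q.primeFactors R =
      ∑ n ∈ (Finset.Icc 1 R).filter (fun n => Nat.Coprime n q), (n : ℝ)⁻¹ := by
    unfold HS
    apply Finset.sum_congr _ (fun _ _ => rfl)
    ext n
    simp only [Finset.mem_filter, Finset.mem_Icc]
    constructor
    · rintro ⟨h5, h6⟩
      refine ⟨h5, ?_⟩
      rw [Nat.coprime_iff_gcd_eq_one]
      by_contra hne
      obtain ⟨p, hp, hpd⟩ := Nat.exists_prime_and_dvd hne
      exact h6 p (Nat.mem_primeFactors.2 ⟨hp, hpd.trans (Nat.gcd_dvd_right _ _), by omega⟩)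
        (hpd.trans (Nat.gcd_dvd_left _ _))
    · rintro ⟨h5, h6⟩
      refine ⟨h5, fun p hp hpn => ?_⟩
      rw [Nat.mem_primeFactors] at hp
      have := Nat.dvd_gcd hpn hp.2.1
      rw [h6] at this
      exact hp.1.one_lt.ne' (Nat.dvd_one.mp this)
  rw [← h3]
  exact (mul_le_mul_of_nonneg_left h2 (by positivity)).trans h1

theorem selS_ge' {a q N R : ℕ} (hq : 1 ≤ q) :
    ((Nat.totient q : ℝ) / q) * Real.log ((R : ℝ) + 1) / 2 ≤ selS (apSieve a q N R) R := by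
  have h1 := selS_ge a q N R
  have h2 := sum_inv_le_two_mul q R
  have h3 := coprime_sum_ge hq R
  linarith

theorem sifted_eq {a q N R : ℕ} (hq : 0 < q) :
    (apSieve a q N R).siftedSum =
      (((Finset.range N).filter (fun k => Nat.Coprime (PP q R) (a + k * q))).card : ℝ) := by
  classical
  have hinj : ∀ x ∈ Finset.range N, ∀ y ∈ Finset.range N,
      (fun k => a + k * q) x = (fun k => a + k * q) y → x = y := by
    intro x _ y _ hxy
    simp only at hxy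
    exact Nat.eq_of_mul_eq_mul_right hq (by omega)
  unfold BoundingSieve.siftedSum
  have h0 : (apSieve a q N R).support = (Finset.range N).image (fun k => a + k * q) := rfl
  rw [h0, Finset.sum_image hinj, Finset.card_filter]
  push_cast
  apply Finset.sum_congr rfl
  intro k _
  have h : (apSieve a q N R).prodPrimes = PP q R := rfl
  have h' : (apSieve a q N R).weights (a + k * q) = 1 := rfl
  by_cases hc : Nat.Coprime (PP q R) (a + k * q)
  · rw [if_pos hc, if_pos (by rw [h]; exact hc), h']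
  · rw [if_neg hc, if_neg (by rw [h]; exact hc)]

open Classical in
theorem sifted_ge' {a q N R : ℕ} (hq : 0 < q) (hR : (R : ℝ) ^ 8 ≤ N) :
    ((((Finset.range N).filter
      (fun i => ∀ p : ℕ, p.Prime → (p : ℝ) ^ 8 ≤ N → ¬ p ∣ a + i * q)).card : ℕ) : ℝ) ≤
      (apSieve a q N R).siftedSum := by
  rw [sifted_eq hq]
  refine Nat.cast_le.2 (Finset.card_le_card ?_)
  intro i hi
  rw [Finset.mem_filter] at hi ⊢
  refine ⟨hi.1, ?_⟩
  rw [Nat.coprime_iff_gcd_eq_one]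
  by_contra hne
  obtain ⟨p, hp, hpd⟩ := Nat.exists_prime_and_dvd hne
  have h1 := (prime_dvd_PP hp).1 (hpd.trans (Nat.gcd_dvd_left _ _))
  refine hi.2 p hp ?_ (hpd.trans (Nat.gcd_dvd_right _ _))
  refine le_trans ?_ hR
  have : (p : ℝ) ≤ R := by exact_mod_cast h1.1
  gcongr

open Classical in
theorem sieve_aux {a q N R : ℕ} (hq : 1 ≤ q) (hR : 1 ≤ R) (hRN : (R : ℝ) ^ 8 ≤ N) :
    ((((Finset.range N).filter
      (fun i => ∀ p : ℕ, p.Prime → (p : ℝ) ^ 8 ≤ N → ¬ p ∣ a + i * q)).card : ℕ) : ℝ) ≤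
      2 * ((q : ℝ) / Nat.totient q) * N / Real.log ((R : ℝ) + 1) + (R : ℝ) ^ 4 := by
  have hR' : (1 : ℝ) ≤ R := by exact_mod_cast hR
  have hq' : (0 : ℝ) < q := by exact_mod_cast hq
  have ht' : (0 : ℝ) < Nat.totient q := by exact_mod_cast Nat.totient_pos.2 hq
  have h1 := sifted_ge' (a := a) (q := q) (N := N) (R := R) hq hRN
  have h2 := siftedSum_le_selberg (apSieve a q N R) (R : ℝ) hR' 1 zero_le_one
    (fun d hd => apSieve_rem hq hd)
  have h3 := selS_ge' (a := a) (N := N) (R := R) hq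
  have hlog : 0 < Real.log ((R : ℝ) + 1) := Real.log_pos (by linarith)
  have h4 : (apSieve a q N R).totalMass / selS (apSieve a q N R) R ≤
      2 * ((q : ℝ) / Nat.totient q) * N / Real.log ((R : ℝ) + 1) := by
    change (N : ℝ) / _ ≤ _
    have : (N : ℝ) / selS (apSieve a q N R) R ≤
        (N : ℝ) / (((Nat.totient q : ℝ) / q) * Real.log ((R : ℝ) + 1) / 2) := by
      apply div_le_div_of_nonneg_left (by positivity) (by positivity) h3
    refine this.trans (le_of_eq ?_)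
    field_simp
  have h5 : (∑ d ∈ (Nat.divisors (apSieve a q N R).prodPrimes).filter
      (fun d : ℕ => (d : ℝ) ≤ R), ((apSieve a q N R).nu d)⁻¹) ≤ (R : ℝ) ^ 2 := by
    have h6 : (Nat.divisors (apSieve a q N R).prodPrimes).filter (fun d : ℕ => (d : ℝ) ≤ R) ⊆
        Finset.Icc 1 R := by
      intro d hd
      rw [Finset.mem_filter, Nat.mem_divisors] at hd
      rw [Finset.mem_Icc]
      refine ⟨Nat.pos_of_ne_zero (ne_zero_of_dvd_ne_zero hd.1.2 hd.1.1),
        by exact_mod_cast hd.2⟩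
    calc (∑ d ∈ (Nat.divisors (apSieve a q N R).prodPrimes).filter
          (fun d : ℕ => (d : ℝ) ≤ R), ((apSieve a q N R).nu d)⁻¹)
        = ∑ d ∈ (Nat.divisors (apSieve a q N R).prodPrimes).filter
          (fun d : ℕ => (d : ℝ) ≤ R), (d : ℝ) := by
          apply Finset.sum_congr rfl
          intro d _
          change ((d : ℝ)⁻¹)⁻¹ = d
          rw [inv_inv]
      _ ≤ ∑ d ∈ Finset.Icc 1 R, (d : ℝ) :=
          Finset.sum_le_sum_of_subset_of_nonneg h6 (fun _ _ _ => by positivity)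
      _ ≤ ∑ d ∈ Finset.Icc 1 R, (R : ℝ) := by
          apply Finset.sum_le_sum
          intro d hd
          exact_mod_cast (Finset.mem_Icc.mp hd).2
      _ = (R : ℝ) ^ 2 := by simp; ring
  have h7 : 0 ≤ (∑ d ∈ (Nat.divisors (apSieve a q N R).prodPrimes).filter
      (fun d : ℕ => (d : ℝ) ≤ R), ((apSieve a q N R).nu d)⁻¹) := by
    apply Finset.sum_nonneg
    intro d _
    change 0 ≤ ((d : ℝ)⁻¹)⁻¹
    positivity
  have h8 : (∑ d ∈ (Nat.divisors (apSieve a q N R).prodPrimes).filter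
      (fun d : ℕ => (d : ℝ) ≤ R), ((apSieve a q N R).nu d)⁻¹) ^ 2 ≤ (R : ℝ) ^ 4 := by
    calc _ ≤ ((R : ℝ) ^ 2) ^ 2 := by gcongr
      _ = (R : ℝ) ^ 4 := by ring
  linarith

end ApS

open Classical in
theorem ap_sieve : ∃ C : ℝ, 1 ≤ C ∧ ∀ a q N : ℕ, 1 ≤ q → 2 ≤ N →
    ((((Finset.range N).filter
      (fun i => ∀ p : ℕ, p.Prime → (p : ℝ) ^ 8 ≤ N → ¬ p ∣ a + i * q)).card : ℕ) : ℝ) ≤
      C * ((q : ℝ) / Nat.totient q) * N / Real.log N := by
  refine ⟨18, by norm_num, ?_⟩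
  intro a q N hq hN
  have hN' : (2 : ℝ) ≤ N := by exact_mod_cast hN
  have hN0 : (0 : ℝ) < N := by linarith
  have hlogN : 0 < Real.log N := Real.log_pos (by linarith)
  have ht' : (0 : ℝ) < Nat.totient q := by exact_mod_cast Nat.totient_pos.2 hq
  have hqt : (1 : ℝ) ≤ (q : ℝ) / Nat.totient q := by
    rw [le_div_iff₀ ht', one_mul]
    exact_mod_cast Nat.totient_le q
  set x : ℝ := (N : ℝ) ^ ((1 : ℝ) / 8) with hx
  have hx1 : 1 ≤ x := Real.one_le_rpow (by linarith) (by norm_num)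
  have hR : 1 ≤ ⌊x⌋₊ := Nat.floor_pos.mpr hx1
  have hfl : (⌊x⌋₊ : ℝ) ≤ x := Nat.floor_le (by linarith)
  have hfl2 : x < (⌊x⌋₊ : ℝ) + 1 := Nat.lt_floor_add_one x
  have hx8 : x ^ 8 = N := by
    rw [hx, ← Real.rpow_natCast, ← Real.rpow_mul hN0.le]
    norm_num
  have hR8 : (⌊x⌋₊ : ℝ) ^ 8 ≤ N := by
    rw [← hx8]; gcongr
  have h := ApS.sieve_aux (a := a) (N := N) (R := ⌊x⌋₊) hq hR hR8
  have hlogx : Real.log x = Real.log N / 8 := by
    rw [hx, Real.log_rpow hN0]; ring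
  have hlog2 : Real.log N / 8 ≤ Real.log ((⌊x⌋₊ : ℝ) + 1) := by
    rw [← hlogx]
    exact Real.log_le_log (by linarith) hfl2.le
  have hx4 : x ^ 4 = Real.sqrt N := by
    rw [hx, ← Real.rpow_natCast, ← Real.rpow_mul hN0.le, Real.sqrt_eq_rpow]
    norm_num
  have hsq : 0 < Real.sqrt N := Real.sqrt_pos.mpr hN0
  have hsq2 : Real.sqrt N * Real.sqrt N = N := Real.mul_self_sqrt hN0.le
  have hlogsq : Real.log N ≤ 2 * Real.sqrt N := by
    have h1 : Real.log (Real.sqrt N) ≤ Real.sqrt N - 1 := Real.log_le_sub_one_of_pos hsq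
    rw [Real.log_sqrt hN0.le] at h1
    linarith
  have h1 : 2 * ((q : ℝ) / Nat.totient q) * (N : ℝ) / Real.log ((⌊x⌋₊ : ℝ) + 1) ≤
      16 * ((q : ℝ) / Nat.totient q) * N / Real.log N := by
    have : 2 * ((q : ℝ) / Nat.totient q) * (N : ℝ) / Real.log ((⌊x⌋₊ : ℝ) + 1) ≤
        2 * ((q : ℝ) / Nat.totient q) * (N : ℝ) / (Real.log N / 8) := by
      apply div_le_div_of_nonneg_left (by positivity) (by positivity) hlog2
    refine this.trans (le_of_eq ?_)
    field_simp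
    norm_num
  have h2 : (⌊x⌋₊ : ℝ) ^ 4 ≤ Real.sqrt N := by
    rw [← hx4]; gcongr
  have h4 : Real.sqrt N ≤ 2 * ((q : ℝ) / Nat.totient q) * N / Real.log N := by
    rw [le_div_iff₀ hlogN]
    have h5 : Real.sqrt N * Real.log N ≤ 2 * N := by nlinarith
    have h6 : 2 * (N : ℝ) ≤ 2 * ((q : ℝ) / Nat.totient q) * N := by nlinarith
    linarith
  have h5 : 18 * ((q : ℝ) / Nat.totient q) * (N : ℝ) / Real.log N =
      16 * ((q : ℝ) / Nat.totient q) * N / Real.log N +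
        2 * ((q : ℝ) / Nat.totient q) * N / Real.log N := by ring
  linarith

open Classical in
theorem primes_dyadic : ∃ C : ℝ, 1 ≤ C ∧ ∀ P : ℝ, 2 ≤ P →
    ((((Finset.Icc 1 ⌊P⌋₊).filter (fun p : ℕ => p.Prime ∧ P / 2 < (p : ℝ))).card : ℕ) : ℝ) ≤
      C * P / Real.log P := by
  obtain ⟨C, hC, h⟩ := brun_titchmarsh
  refine ⟨2 * C, by linarith, fun P hP => ?_⟩
  have hfl : (⌊P⌋₊ : ℝ) ≤ P := Nat.floor_le (by linarith)
  have hfl2 : P < (⌊P⌋₊ : ℝ) + 1 := Nat.lt_floor_add_one P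
  have h2 : 2 ≤ ⌊P⌋₊ := Nat.le_floor (by exact_mod_cast hP)
  have h1 := h 0 1 (⌊P⌋₊ + 1) (by omega) (Or.inl rfl)
  have h3 : ((((Finset.Icc 1 ⌊P⌋₊).filter
      (fun p : ℕ => p.Prime ∧ P / 2 < (p : ℝ))).card : ℕ) : ℝ) ≤
      (((Finset.range (⌊P⌋₊ + 1)).filter (fun k => (0 + k * 1).Prime)).card : ℝ) := by
    refine Nat.cast_le.2 (Finset.card_le_card ?_)
    intro p hp
    rw [Finset.mem_filter, Finset.mem_Icc] at hp
    rw [Finset.mem_filter, Finset.mem_range]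
    exact ⟨by omega, by simpa using hp.2.1⟩
  refine h3.trans (h1.trans ?_)
  have hlogP : 0 < Real.log P := Real.log_pos (by linarith)
  push_cast
  have h4 : Real.log P ≤ Real.log ((⌊P⌋₊ : ℝ) + 1) := Real.log_le_log (by linarith) hfl2.le
  have h5 : C * ((⌊P⌋₊ : ℝ) + 1) ≤ 2 * C * P := by nlinarith
  calc C * ((⌊P⌋₊ : ℝ) + 1) / Real.log ((⌊P⌋₊ : ℝ) + 1)
      ≤ C * ((⌊P⌋₊ : ℝ) + 1) / Real.log P := by
        apply div_le_div_of_nonneg_left (by positivity) hlogP h4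
    _ ≤ 2 * C * P / Real.log P := by gcongr

end Pool.Agent.H95R2.Leh
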